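import Pool.Agent.FBuild.Red
import Pool.Agent.FBuild.Tile

/-!
Matsumoto's theorem for partial actions of a Coxeter system.
-/

set_option autoImplicit false

namespace Pool.Agent.FBP

open Pool.Agent.FBuild CoxeterSystem

section alt

theorem altM_inv {G : Type} [Group G] (x y : G) (hx : x * x = 1) (hy : y * y = 1) (n : ℕ) :
    (altM x y n)⁻¹ = if Even n then altM y x n else altM x y n := by
  have hxi : x⁻¹ = x := (eq_inv_of_mul_eq_one_left hx).symm
  have hyi : y⁻¹ = y := (eq_inv_of_mul_eq_one_left hy).symm
  obtain ⟨k, rfl | rfl⟩ := n.even_or_odd'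
  · rw [if_pos (even_two_mul k), altM_even, altM_even, ← inv_pow, mul_inv_rev, hxi, hyi]
  · rw [if_neg (by rw [Nat.not_even_iff_odd]; exact ⟨k, rfl⟩), altM_odd, mul_inv_rev, ← inv_pow,
      mul_inv_rev, hxi, hyi]
    exact (mul_pow_mul x y k).symm

theorem altM_invol {G : Type} [Group G] (x y : G) (hx : x * x = 1) (hy : y * y = 1) (m : ℕ)
    (h : (x * y) ^ m = 1) : altM x y m * altM x y m = 1 := by
  have h1 := altM_inv x y hx hy m
  have h2 := altM_rel x y hx hy m h
  rw [← h2, ite_self] at h1
  nth_rewrite 1 [← h1]
  exact inv_mul_cancel _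

theorem prod_map_altL {G A : Type} [Group G] (u : A → G) (a b : A) (n : ℕ) :
    ((altL a b n).map u).prod = altM (u a) (u b) n := by
  induction n generalizing a b with
  | zero => simp [altL, altM]
  | succ n ih => rw [altL, List.map_cons, List.prod_cons, ih, altM]

theorem length_altL {A : Type} (a b : A) (n : ℕ) : (altL a b n).length = n := by
  induction n generalizing a b with
  | zero => rfl
  | succ n ih => rw [altL, List.length_cons, ih]

end alt

section desc

variable {B W : Type} [Group W] {M : CoxeterMatrix B} (cs : CoxeterSystem M W)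

theorem game_neg {w : W} {s : B} (h : cs.length (cs.simple s * w) < cs.length w) :
    game cs w (fun _ => 1) s < 0 := by
  have h2 : cs.length (cs.simple s * w) < cs.length (cs.simple s * (cs.simple s * w)) := by
    rw [cs.simple_mul_simple_cancel_left]; exact h
  have h3 := game_pos cs (fun _ => 1) (fun _ => one_pos) _ s h2
  rw [map_mul, game_simple] at h3
  have h4 : (act (kM M) s * game cs w) (fun _ => (1 : ℝ)) s =
    act (kM M) s (game cs w (fun _ => 1)) s := rfl
  rw [h4, act_apply, kM_diag] at h3
  linarith

theorem down (w : W) (n : ℕ) : ∀ s t : B, s ≠ t → cs.length (cs.simple s * w) < cs.length w →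
    cs.length (cs.simple t * w) < cs.length w → (M s t = 0 ∨ n ≤ M s t) →
    cs.length (altM (cs.simple s) (cs.simple t) n * w) + n = cs.length w := by
  induction n with
  | zero => intro s t _ _ _ _; simp [altM]
  | succ n ih =>
    intro s t hst hs ht hn
    have h1 := ih t s hst.symm ht hs (by rw [M.symmetric]; omega)
    obtain ⟨V, V0, V1, Vrec, Vpos, Vnn⟩ := exists_V (M s t) (M.off_diagonal s t hst)
    have hr := rank2 (kM M) _ V V0 V1 Vrec (game cs w (fun _ => 1)) n s t (kM_diag s) (kM_diag t)
      (by rw [kM]) (by rw [kM_symm, kM])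
    have e1 : game cs (altM (cs.simple t) (cs.simple s) n * w) (fun _ => 1) s =
        (altM (act (kM M) t) (act (kM M) s) n (game cs w (fun _ => 1))) s := by
      rw [map_mul, altM_hom, game_simple, game_simple]
      rfl
    have gs := game_neg cs hs
    have gt := game_neg cs ht
    have hneg : game cs (altM (cs.simple t) (cs.simple s) n * w) (fun _ => 1) s < 0 := by
      rw [e1, hr]
      rcases Nat.eq_zero_or_pos n with rfl | h0
      · rw [V0, zero_add, V1]
        simpa using gs
      · have q1 : 0 ≤ V n := Vnn n (by omega)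
        have q2 : 0 < V (n + 1) ∨ (V (n + 1) = 0 ∧ 0 < V n) := by
          rcases (Vnn (n + 1) hn).lt_or_eq with h | h
          · exact Or.inl h
          · exact Or.inr ⟨h.symm, Vpos n h0 (by omega)⟩
        rcases q2 with q2 | ⟨q2, q3⟩
        · split_ifs
          · nlinarith [mul_nonneg q1 (neg_nonneg.2 gt.le), mul_pos q2 (neg_pos.2 gs)]
          · nlinarith [mul_nonneg q1 (neg_nonneg.2 gs.le), mul_pos q2 (neg_pos.2 gt)]
        · rw [q2]
          split_ifs
          · nlinarith [mul_pos q3 (neg_pos.2 gt)]
          · nlinarith [mul_pos q3 (neg_pos.2 gs)]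
    have h2 := (game_iff cs (fun _ => 1) (fun _ => one_pos)
      (altM (cs.simple t) (cs.simple s) n * w) s).not.2 (by linarith)
    have h3 := cs.length_simple_mul (altM (cs.simple t) (cs.simple s) n * w) s
    rw [altM, mul_assoc]
    omega

/-- Two descents. -/
theorem two_desc (w : W) (s t : B) (hst : s ≠ t) (hs : cs.length (cs.simple s * w) < cs.length w)
    (ht : cs.length (cs.simple t * w) < cs.length w) : M s t ≠ 0 ∧
    ∃ u, w = altM (cs.simple s) (cs.simple t) (M s t) * u ∧
      cs.length w = M s t + cs.length u := by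
  have h0 : M s t ≠ 0 := by
    intro h0
    have := down cs w (cs.length w + 1) s t hst hs ht (Or.inl h0)
    omega
  refine ⟨h0, altM (cs.simple s) (cs.simple t) (M s t) * w, ?_, ?_⟩
  · rw [← mul_assoc, altM_invol _ _ (cs.simple_mul_simple_self _) (cs.simple_mul_simple_self _) _
      (cs.simple_mul_simple_pow s t), one_mul]
  · have := down cs w (M s t) s t hst hs ht (Or.inr le_rfl)
    omega

end desc

section act

variable {B W Y : Type} [Group W] {M : CoxeterMatrix B} (cs : CoxeterSystem M W)
  (st : B → Y → Option Y)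

/-- Partial action of words. -/
def prun : List B → Y → Option Y
  | [], y => some y
  | s :: ω, y => (st s y).bind (prun ω)

theorem prun_append (ω ω' : List B) (y : Y) :
    prun st (ω ++ ω') y = (prun st ω y).bind (prun st ω') := by
  induction ω generalizing y with
  | nil => simp [prun]
  | cons s ω ih =>
    rw [List.cons_append, prun, prun, Option.bind_assoc]
    congr 1
    funext z
    exact ih z

/-- Matsumoto's theorem. -/
theorem mats (hbr : ∀ s t, s ≠ t → M s t ≠ 0 → ∀ y,
    prun st (altL s t (M s t)) y = prun st (altL t s (M s t)) y) (n : ℕ) :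
    ∀ ω ω' : List B, ω.length = n → cs.IsReduced ω → cs.IsReduced ω' →
      cs.wordProd ω = cs.wordProd ω' → prun st ω = prun st ω' := by
  induction n with
  | zero =>
    intro ω ω' h0 h1 h2 h3
    have e1 : ω = [] := List.length_eq_zero_iff.1 h0
    subst e1
    have h4 := h2.eq
    rw [← h3, wordProd_nil, cs.length_one] at h4
    rw [List.length_eq_zero_iff.1 h4.symm]
  | succ n ih =>
    intro ω ω' h0 h1 h2 h3
    obtain ⟨s, ω₁, rfl⟩ := List.exists_cons_of_length_eq_add_one h0
    have hl' : ω'.length = n + 1 := by rw [← h2.eq, ← h3, h1.eq, h0]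
    obtain ⟨t, ω₂, rfl⟩ := List.exists_cons_of_length_eq_add_one hl'
    have r1 := (isReduced_cons cs s ω₁).1 h1
    have r2 := (isReduced_cons cs t ω₂).1 h2
    rw [List.length_cons] at h0 hl'
    by_cases hst : s = t
    · subst hst
      rw [wordProd_cons, wordProd_cons] at h3
      have h4 := ih ω₁ ω₂ (by omega) r1.1 r2.1 (mul_left_cancel h3)
      funext y
      rw [prun, prun, h4]
    · set w := cs.wordProd (s :: ω₁) with hw
      have hlw : cs.length w = n + 1 := by rw [hw, h1.eq, List.length_cons]; omega
      have e1 : cs.simple s * w = cs.wordProd ω₁ := by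
        rw [hw, wordProd_cons, cs.simple_mul_simple_cancel_left]
      have e2 : cs.simple t * w = cs.wordProd ω₂ := by
        rw [h3, wordProd_cons, cs.simple_mul_simple_cancel_left]
      obtain ⟨hm0, u, hu, hlu⟩ := two_desc cs w s t hst (by rw [e1, r1.1.eq]; omega)
        (by rw [e2, r2.1.eq]; omega)
      obtain ⟨ωu, hωu, heu⟩ := cs.exists_isReduced u
      obtain ⟨m, hm⟩ : ∃ m, M s t = m + 1 := ⟨M s t - 1, by omega⟩
      have key : ∀ (a b : B) (ω₃ : List B), cs.IsReduced ω₃ → ω₃.length = n →
          w = altM (cs.simple a) (cs.simple b) (m + 1) * u →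
          cs.simple a * w = cs.wordProd ω₃ →
          prun st (a :: ω₃) = prun st (altL a b (m + 1) ++ ωu) := by
        intro a b ω₃ g1 g2 g3 g4
        have e3 : cs.wordProd ω₃ = cs.wordProd (altL b a m ++ ωu) := by
          rw [← g4, g3, altM, mul_assoc, cs.simple_mul_simple_cancel_left, wordProd_append, ← heu]
          congr 1
          rw [wordProd, prod_map_altL]
        have g5 : cs.IsReduced (altL b a m ++ ωu) := by
          show cs.length _ = _
          rw [← e3, g1.eq, List.length_append, length_altL, ← hωu.eq, ← heu]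
          omega
        have h5 := ih ω₃ (altL b a m ++ ωu) g2 g1 g5 e3
        funext y
        rw [prun, h5]
        rfl
      have k1 := key s t ω₁ r1.1 (by omega) (by rw [← hm]; exact hu) e1
      have k2 := key t s ω₂ r2.1 (by omega) (by
        rw [← hm, ← altM_rel _ _ (cs.simple_mul_simple_self _) (cs.simple_mul_simple_self _) _
          (cs.simple_mul_simple_pow s t)]
        exact hu) e2
      rw [k1, k2]
      funext y
      rw [prun_append, prun_append, ← hm, hbr s t hst hm0 y]

/-- Words can be replaced by reduced words. -/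
theorem prun_red (hbr : ∀ s t, s ≠ t → M s t ≠ 0 → ∀ y,
    prun st (altL s t (M s t)) y = prun st (altL t s (M s t)) y)
    (hinv : ∀ s y z, st s y = some z → st s z = some y) (ω : List B) :
    ∀ y z, prun st ω y = some z → ∃ ω', cs.IsReduced ω' ∧ cs.wordProd ω' = cs.wordProd ω ∧
      prun st ω' y = some z := by
  induction ω with
  | nil =>
    intro y z h
    exact ⟨[], by simp [CoxeterSystem.IsReduced], rfl, h⟩
  | cons s ω ih =>
    intro y z h
    rw [prun, Option.bind_eq_some_iff] at h
    obtain ⟨y₁, h1, h2⟩ := h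
    obtain ⟨ω₁, h3, h4, h5⟩ := ih y₁ z h2
    rcases cs.length_simple_mul (cs.wordProd ω₁) s with h6 | h6
    · refine ⟨s :: ω₁, (isReduced_cons cs s ω₁).2 ⟨h3, by omega⟩, ?_, ?_⟩
      · rw [wordProd_cons, wordProd_cons, h4]
      · rw [prun, h1]
        exact h5
    · obtain ⟨ω₂, h7, h8⟩ := cs.exists_isReduced (cs.simple s * cs.wordProd ω₁)
      have h9 : cs.wordProd (s :: ω₂) = cs.wordProd ω₁ := by
        rw [wordProd_cons, ← h8, cs.simple_mul_simple_cancel_left]
      have h10 : cs.IsReduced (s :: ω₂) := by
        rw [isReduced_cons]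
        refine ⟨h7, ?_⟩
        rw [← h8, cs.simple_mul_simple_cancel_left]
        omega
      have h11 := mats cs st hbr _ ω₁ (s :: ω₂) rfl h3 h10 h9.symm
      rw [h11, prun, hinv s y y₁ h1] at h5
      exact ⟨ω₂, h7, by rw [← h8, h4, wordProd_cons], h5⟩

end act

end Pool.Agent.FBP
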